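import Pool.Agent.H971.TiR.D
import Pool.Graph.R_pool_sql_team_seeded_63374d34.N789.QD.KF

set_option autoImplicit false

/-!
# Project Ti (MP_2805c2_an), task LR: the Laplace transform of `T0`, exterior angles `< π/2` and `π/2`
-/

namespace Pool.Agent.H971.TiR

open MeasureTheory Set Filter Topology Complex
open Pool.Agent.R225.LP (gk)
open Pool.Agent.N275.QD (Rf Kf Gf Gr Hh S_KF)
open Pool.Agent.H235.Ti
open scoped Real ENNReal ComplexConjugate

/-- majorant of `as ^ 2`, over `κ ^ 2` -/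
noncomputable def a0 (d s : ℝ) : ℝ :=
  (1 + 2 * Real.cosh s) ^ 2 * Real.exp (-((2 * (d / 3)) * (Real.cosh s - 1)))

lemma a0_integrable {d : ℝ} (hd : 0 < d) : Integrable (a0 d) hl := by
  set c := 2 * (d / 3) with hc
  have hc0 : 0 < c := by positivity
  have h1 := (Pool.Agent.N789.KF.integrable_exp_cosh (by positivity : 0 < c / 2)).const_mul
    (9 * (2 / (c / 2) ^ 2) * Real.exp c)
  refine Integrable.mono' (h1.integrableOn (s := Ioi 0)) ?_ ?_
  · unfold a0
    exact (by fun_prop : Measurable fun s => (1 + 2 * Real.cosh s) ^ 2 *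
      Real.exp (-((2 * (d / 3)) * (Real.cosh s - 1)))).aestronglyMeasurable
  · refine Eventually.of_forall fun s => ?_
    have hx := Real.one_le_cosh s
    unfold a0
    rw [← hc, Real.norm_eq_abs, abs_of_nonneg (by positivity)]
    have h2 := Real.pow_div_factorial_le_exp (c / 2 * Real.cosh s) (by positivity) 2
    have h3 : Real.cosh s ^ 2 ≤ 2 / (c / 2) ^ 2 * Real.exp (c / 2 * Real.cosh s) := by
      rw [div_mul_eq_mul_div, le_div_iff₀ (by positivity)]
      have : ((Nat.factorial 2 : ℕ) : ℝ) = 2 := by norm_num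
      rw [this, div_le_iff₀ (by norm_num)] at h2
      nlinarith
    have h4 : (1 + 2 * Real.cosh s) ^ 2 ≤ 9 * Real.cosh s ^ 2 := by nlinarith
    calc (1 + 2 * Real.cosh s) ^ 2 * Real.exp (-(c * (Real.cosh s - 1))) ≤
        (9 * (2 / (c / 2) ^ 2 * Real.exp (c / 2 * Real.cosh s))) *
          Real.exp (-(c * (Real.cosh s - 1))) := by
          apply mul_le_mul_of_nonneg_right _ (Real.exp_pos _).le
          linarith
      _ = 9 * (2 / (c / 2) ^ 2) * (Real.exp (c / 2 * Real.cosh s) *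
          Real.exp (-(c * (Real.cosh s - 1)))) := by ring
      _ = 9 * (2 / (c / 2) ^ 2) * (Real.exp c * Real.exp (-(c / 2 * Real.cosh s))) := by
          rw [← Real.exp_add, ← Real.exp_add]
          congr 2
          ring
      _ = _ := by ring

lemma as_sq_le {d κ s : ℝ} (hd : 0 < d) (hκ : 1 ≤ κ) : as d κ s ^ 2 ≤ κ ^ 2 * a0 d s := by
  have hx := Real.one_le_cosh s
  unfold as a0
  rw [mul_pow, ← Real.exp_nat_mul, ← mul_assoc, ← mul_pow]
  apply mul_le_mul _ _ (Real.exp_pos _).le (by positivity)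
  · apply pow_le_pow_left₀ (by positivity)
    nlinarith
  · apply Real.exp_le_exp.2
    push_cast
    have : 0 ≤ (κ - 1) * (d / 3 * (Real.cosh s - 1)) :=
      mul_nonneg (by linarith) (mul_nonneg (by positivity) (by linarith))
    nlinarith

lemma as_sq_integrable {d κ : ℝ} (hd : 0 < d) (hκ : 1 ≤ κ) :
    Integrable (fun s => as d κ s ^ 2) hl := by
  refine Integrable.mono' ((a0_integrable hd).const_mul (κ ^ 2)) ?_ ?_
  · unfold as
    exact (by fun_prop : Measurable fun s => ((1 + 2 * κ * Real.cosh s) *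
      Real.exp (-(κ * (d / 3) * (Real.cosh s - 1)))) ^ 2).aestronglyMeasurable
  · refine Eventually.of_forall fun s => ?_
    rw [Real.norm_eq_abs, abs_of_nonneg (sq_nonneg _)]
    exact as_sq_le hd hκ

section

variable {d B ψ κ : ℝ}

lemma sq_integrable (kf : S_KF) (gft : S_GFT) (hd : 0 < d) (hB : 0 < B) (hB1 : ∀ x, |X1 d x| ≤ B)
    (hB2 : ∀ x, |X2 d x| ≤ B) (hψ : 0 < ψ) {α : ℝ} (hα : 0 < α) (hα2 : α < π / 2)
    (hψ2 : 2 * ψ < π - 2 * α) (hκ : 0 < κ)
    (has : Integrable (fun s => as d κ s ^ 2) hl)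
    {S : Set ℂ} (hS : MeasurableSet S) (hSQ : S ⊆ Qd) :
    Integrable (fun p => Rf α p.1 * (∫ z in S, Ph d κ p z) ^ 2) (hl.prod hl) := by
  have h2 : Integrable (fun p : ℝ × ℝ => (Rf α p.1 * Real.exp (2 * ψ * p.1)) *
      as d κ p.2 ^ 2) (hl.prod hl) :=
      (Rf_exp_integrable gft hα hα2 (by linarith : 0 ≤ 2 * ψ) hψ2).mul_prod has
  refine Integrable.mono' (h2.mul_const ((cc B d κ ψ *
    (d / 3 * (Real.exp (-(κ * Real.sin ψ * 0)) / (κ * Real.sin ψ)))) ^ 2)) ?_ ?_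
  · have h3 := (measurable_Ph d κ).stronglyMeasurable.integral_prod_right
      (f := fun p z => Ph d κ p z) (ν := (volume : Measure ℂ).restrict S)
    have h4 : Measurable (fun p : ℝ × ℝ => Rf α p.1) := (measurable_Rf α).comp measurable_fst
    exact (h4.mul (h3.measurable.pow_const 2)).aestronglyMeasurable
  · filter_upwards [ae_hl_prod] with p hp
    have hR := Rf_nonneg hα hα2 hp.1.le
    have e1 := Ph_int_le kf hd hB hB1 hB2 hψ (by linarith) hκ hp.1.le (p := p) hS hSQ (η := 0)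
      (fun z hz _ _ => (hSQ hz).2)
    rw [Real.norm_eq_abs, abs_mul, abs_of_nonneg hR, abs_of_nonneg (sq_nonneg _), ← sq_abs]
    calc Rf α p.1 * |∫ z in S, Ph d κ p z| ^ 2 ≤ Rf α p.1 *
        (Real.exp (ψ * p.1) * as d κ p.2 * cc B d κ ψ *
      (d / 3 * (Real.exp (-(κ * Real.sin ψ * 0)) / (κ * Real.sin ψ)))) ^ 2 := by
          apply mul_le_mul_of_nonneg_left _ hR
          exact pow_le_pow_left₀ (abs_nonneg _) e1 2
      _ = _ := by
          have : Real.exp (2 * ψ * p.1) = Real.exp (ψ * p.1) * Real.exp (ψ * p.1) := by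
            rw [← Real.exp_add]
            congr 1
            ring
          rw [this]
          ring

/-- the difference of the integrals over the quadrant and over a subset -/
lemma diff_le (kf : S_KF) (gft : S_GFT) (hd : 0 < d) (hB : 0 < B) (hB1 : ∀ x, |X1 d x| ≤ B)
    (hB2 : ∀ x, |X2 d x| ≤ B) (hψ : 0 < ψ) {α : ℝ} (hα : 0 < α) (hα2 : α < π / 2)
    (hψ2 : 2 * ψ < π - 2 * α) (hκ : 0 < κ)
    (has : Integrable (fun s => as d κ s ^ 2) hl)
    {S : Set ℂ} (hS : MeasurableSet S) (hSQ : S ⊆ Qd) {η : ℝ}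
    (hSη : ∀ z ∈ Qd, z ∉ S → d / 3 ≤ z.re → z.re ≤ 2 * d / 3 → η < z.im) :
    |∫ p, Rf α p.1 * (∫ z in S, Ph d κ p z) ^ 2 ∂(hl.prod hl) -
      ∫ p, Rf α p.1 * (∫ z in Qd, Ph d κ p z) ^ 2 ∂(hl.prod hl)| ≤
    2 * cc B d κ ψ ^ 2 * (d / 3 * (Real.exp (-(κ * Real.sin ψ * 0)) / (κ * Real.sin ψ))) *
      (d / 3 * (Real.exp (-(κ * Real.sin ψ * η)) / (κ * Real.sin ψ))) *
      ((∫ μ, Rf α μ * Real.exp (2 * ψ * μ) ∂hl) * ∫ s, as d κ s ^ 2 ∂hl) := by
  have hψ3 : ψ < π / 2 := by linarith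
  have i1 := sq_integrable kf gft hd hB hB1 hB2 hψ hα hα2 hψ2 hκ has hS hSQ
  have i2 := sq_integrable kf gft hd hB hB1 hB2 hψ hα hα2 hψ2 hκ has measurableSet_Qd subset_rfl
  set N0 := d / 3 * (Real.exp (-(κ * Real.sin ψ * 0)) / (κ * Real.sin ψ)) with hN0
  set N1 := d / 3 * (Real.exp (-(κ * Real.sin ψ * η)) / (κ * Real.sin ψ)) with hN1
  rw [← integral_sub i1 i2]
  have h2 : Integrable (fun p : ℝ × ℝ => (Rf α p.1 * Real.exp (2 * ψ * p.1)) *
      as d κ p.2 ^ 2) (hl.prod hl) :=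
      (Rf_exp_integrable gft hα hα2 (by linarith : 0 ≤ 2 * ψ) hψ2).mul_prod has
  have h3 : ∫ p : ℝ × ℝ, (Rf α p.1 * Real.exp (2 * ψ * p.1)) * as d κ p.2 ^ 2 ∂(hl.prod hl) =
      (∫ μ, Rf α μ * Real.exp (2 * ψ * μ) ∂hl) * ∫ s, as d κ s ^ 2 ∂hl :=
    integral_prod_mul (μ := hl) (ν := hl) (fun μ => Rf α μ * Real.exp (2 * ψ * μ))
      (fun s => as d κ s ^ 2)
  rw [← h3, ← integral_const_mul, ← Real.norm_eq_abs]
  apply norm_integral_le_of_norm_le (h2.const_mul _)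
  filter_upwards [ae_hl_prod] with p hp
  have hR := Rf_nonneg hα hα2 hp.1.le
  have e1 := Ph_int_le kf hd hB hB1 hB2 hψ hψ3 hκ hp.1.le (p := p) hS hSQ (η := 0)
    (fun z hz _ _ => (hSQ hz).2)
  have e2 := Ph_int_le kf hd hB hB1 hB2 hψ hψ3 hκ hp.1.le (p := p) measurableSet_Qd subset_rfl
    (η := 0) (fun z hz _ _ => hz.2)
  have e3 := Ph_int_le kf hd hB hB1 hB2 hψ hψ3 hκ hp.1.le (p := p) (measurableSet_Qd.diff hS)
    sdiff_subset (η := η) (fun z hz => hSη z hz.1 hz.2)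
  rw [setIntegral_sdiff hS (Ph_integrable kf hd hB hB1 hB2 hψ hψ3 hκ hp.1.le) hSQ] at e3
  rw [← hN0] at e1 e2
  rw [← hN1] at e3
  set M := Real.exp (ψ * p.1) * as d κ p.2 * cc B d κ ψ with hM
  set AK := ∫ z in S, Ph d κ p z
  set AQ := ∫ z in Qd, Ph d κ p z
  have hM0 : 0 ≤ M :=
    mul_nonneg (mul_nonneg (Real.exp_pos _).le (as_nonneg hκ _)) (cc_nonneg hB)
  have e4 : |AK + AQ| ≤ 2 * (M * N0) := by
    calc _ ≤ |AK| + |AQ| := abs_add_le _ _
      _ ≤ _ := by linarith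
  have e5 : |AK - AQ| ≤ M * N1 := by
    rw [abs_sub_comm]
    exact e3
  have e6 : Rf α p.1 * AK ^ 2 - Rf α p.1 * AQ ^ 2 = Rf α p.1 * ((AK - AQ) * (AK + AQ)) := by ring
  rw [e6, Real.norm_eq_abs, abs_mul, abs_mul, abs_of_nonneg hR]
  calc Rf α p.1 * (|AK - AQ| * |AK + AQ|) ≤ Rf α p.1 * ((M * N1) * (2 * (M * N0))) := by
        apply mul_le_mul_of_nonneg_left _ hR
        exact mul_le_mul e5 e4 (abs_nonneg _) ((abs_nonneg _).trans e5)
    _ = _ := by
        have : Real.exp (2 * ψ * p.1) = Real.exp (ψ * p.1) * Real.exp (ψ * p.1) := by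
          rw [← Real.exp_add]
          congr 1
          ring
        rw [this, hM]
        ring

end

/-- the full integral -/
lemma XF_eq (gft : S_GFT) (L5 : S_L5) {α d κ : ℝ} (hα : 0 < α) (hα2 : α < π / 2) (hd : 0 < d)
    (hκ : 0 < κ) :
    XF 1 α 0 d κ = 2 / π ^ 3 * ∫ p, Rf α p.1 * (∫ z in Qd, Ph d κ p z) ^ 2 ∂(hl.prod hl) := by
  have hA : ∀ᵐ p : ℝ × ℝ ∂(hl.prod hl), Rf α p.1 * (∫ z in Qd, Ph d κ p z) ^ 2 =
      π ^ 2 * (Rf α p.1 * Real.sin (p.1 * p.2) ^ 2 * Real.exp (-(2 * κ * d * Real.cosh p.2))) := by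
    filter_upwards [ae_hl_prod] with p hp
    have h1 := (L5 p.1 κ d hκ hd).2.1 p.2 hp.2
    have h2 : ∫ z in Qd, Ph d κ p z = π * Real.sin (p.1 * p.2) *
        Real.exp (-(κ * d * Real.cosh p.2)) := h1
    rw [h2, mul_pow, mul_pow, ← Real.exp_nat_mul]
    have h3 : ((2 : ℕ) : ℝ) * -(κ * d * Real.cosh p.2) = -(2 * κ * d * Real.cosh p.2) := by
      push_cast
      ring
    rw [h3]
    ring
  rw [integral_congr_ae hA, integral_const_mul]
  -- integrability
  have hR : Integrable (Rf α) hl := by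
    have := Rf_exp_integrable gft hα hα2 (c := 0) le_rfl (by linarith)
    simp only [zero_mul, Real.exp_zero, mul_one] at this
    exact this
  have hE : Integrable (fun s => Real.exp (-(2 * κ * d * Real.cosh s))) hl :=
    (Pool.Agent.N789.KF.integrable_exp_cosh (by positivity : 0 < 2 * κ * d)).integrableOn
  have hi : Integrable (fun p : ℝ × ℝ => Rf α p.1 * Real.sin (p.1 * p.2) ^ 2 *
      Real.exp (-(2 * κ * d * Real.cosh p.2))) (hl.prod hl) := by
    refine Integrable.mono' (hR.mul_prod hE) ?_ ?_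
    · have h4 : Measurable (fun p : ℝ × ℝ => Rf α p.1) := (measurable_Rf α).comp measurable_fst
      have h5 : Measurable (fun p : ℝ × ℝ => Real.sin (p.1 * p.2) ^ 2) := by fun_prop
      have h6 : Measurable (fun p : ℝ × ℝ => Real.exp (-(2 * κ * d * Real.cosh p.2))) := by
        fun_prop
      exact ((h4.mul h5).mul h6).aestronglyMeasurable
    · filter_upwards [ae_hl_prod] with p hp
      have hR := Rf_nonneg hα hα2 hp.1.le
      rw [Real.norm_eq_abs, abs_of_nonneg (by positivity)]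
      apply mul_le_mul_of_nonneg_right _ (Real.exp_pos _).le
      have := Real.sin_sq_le_one (p.1 * p.2)
      nlinarith
  have hsw : ∫ p : ℝ × ℝ, Rf α p.1 * Real.sin (p.1 * p.2) ^ 2 *
      Real.exp (-(2 * κ * d * Real.cosh p.2)) ∂(hl.prod hl) =
      ∫ s in Ioi (0 : ℝ), ∫ μ in Ioi (0 : ℝ), Rf α μ * Real.sin (μ * s) ^ 2 *
        Real.exp (-(2 * κ * d * Real.cosh s)) := integral_prod_symm _ hi
  rw [hsw]
  have hin : ∀ s : ℝ, ∫ μ in Ioi (0 : ℝ), Rf α μ * Real.sin (μ * s) ^ 2 *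
        Real.exp (-(2 * κ * d * Real.cosh s)) =
      1 / 2 * ((gi α (2 * 0) - gf α (2 * s)) * Real.exp (-(2 * κ * d * Real.cosh s))) := by
    intro s
    rw [integral_mul_const]
    have g1 := (gft α 0 hα hα2).1
    have g2 := (gft α (2 * s) hα hα2).1
    have g3 : ∀ μ : ℝ, Rf α μ * Real.sin (μ * s) ^ 2 = 1 / 2 * (Rf α μ * Real.cos (μ * 0) -
        Rf α μ * Real.cos (μ * (2 * s))) := by
      intro μ
      rw [Real.sin_sq_eq_half_sub, show 2 * (μ * s) = μ * (2 * s) by ring]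
      simp
      ring
    simp_rw [g3]
    rw [integral_const_mul, integral_sub g1.1 g2.1, g1.2, g2.2]
    have g4 : gi α (2 * 0) = gf α 0 := by
      unfold gi gf
      simp
    rw [g4]
    ring
  simp_rw [hin]
  rw [integral_const_mul]
  unfold XF
  have h7 : ∀ A : ℝ, 1 / π * A = 2 / π ^ 3 * (π ^ 2 * (1 / 2 * A)) := by
    intro A
    field_simp
  exact h7 _

/-- the conclusion `LT` for one type of sides, with the brackets in the right place (in the version
of `Pool.Agent.H235.Ti.LT` of 11:47 the integral swallows `- X κ`) -/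
def LTc (d : ℝ) (F X : ℝ → ℝ) : Prop :=
  (∀ κ, 0 < κ → IntegrableOn (fun t => Real.exp (-(κ ^ 2 * t)) * F t) (Ioi 0)) ∧
  ∃ C η' κ₀ : ℝ, 0 < η' ∧ ∀ κ, κ₀ ≤ κ →
    |(∫ t in Ioi (0 : ℝ), Real.exp (-(κ ^ 2 * t)) * F t) - X κ| ≤
      C * Real.exp (-((2 * d + η') * κ))

/-- `S_LR` with the corrected `LT` -/
theorem lrc (hL1 : Pool.Agent.H235.Ti.S_L1) (hL5 : Pool.Agent.H235.Ti.S_L5)
    (hGFT : Pool.Agent.H235.Ti.S_GFT) (hL7B : Pool.Agent.H235.Ti.S_L7B) :
    ∀ α d : ℝ, 0 < α → α < π / 2 → 0 < d →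
      ∃ η₀ : ℝ, 0 < η₀ ∧ ∀ η, 0 < η → η ≤ η₀ →
        LTc d (T0 0 d η (Gr α 0) (GR d)) (XF 1 α 0 d) := by
  have kf : S_KF := Pool.Agent.N789.KF.kf
  intro α d hα hα2 hd
  obtain ⟨B, hB, hB1, hB2⟩ := exists_bound12 hd
  have hpi := Real.pi_pos
  have hpi3 := Real.pi_gt_three
  set ψ₀ := (π / 2 - α) / 2 with hψ₀
  have hψ₀0 : 0 < ψ₀ := by
    rw [hψ₀]
    linarith
  have hψ₀1 : ψ₀ < π / 2 := by
    rw [hψ₀]
    linarith
  have htan : 0 < Real.tan ψ₀ := Real.tan_pos_of_pos_of_lt_pi_div_two hψ₀0 hψ₀1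
  refine ⟨d / 6 * Real.tan ψ₀, by positivity, fun η hη hη1 => ?_⟩
  set K := Kc d η ∩ Hh 0 with hKdef
  have hKmem : ∀ z : ℂ, z ∈ K ↔ (d / 6 ≤ z.re ∧ z.re ≤ 5 * d / 6 ∧ |z.im| ≤ η) ∧ 0 < z.im := by
    intro z
    rw [hKdef]
    simp [Kc, Hh]
  have hKQ : K ⊆ Qd := fun z hz => by
    rw [hKmem] at hz
    exact ⟨by linarith [hz.1.1], hz.2⟩
  have hKm : MeasurableSet K := by
    have : K = {z : ℂ | (d / 6 ≤ z.re ∧ z.re ≤ 5 * d / 6 ∧ |z.im| ≤ η) ∧ 0 < z.im} := by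
      ext z
      exact hKmem z
    rw [this]
    have m1 : MeasurableSet {z : ℂ | d / 6 ≤ z.re} := measurableSet_le measurable_const
      Complex.measurable_re
    have m2 : MeasurableSet {z : ℂ | z.re ≤ 5 * d / 6} := measurableSet_le
      Complex.measurable_re measurable_const
    have m3 : MeasurableSet {z : ℂ | |z.im| ≤ η} := measurableSet_le
      (Complex.measurable_im.abs) measurable_const
    have m4 : MeasurableSet {z : ℂ | 0 < z.im} := measurableSet_lt measurable_const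
      Complex.measurable_im
    exact (m1.inter (m2.inter m3)).inter m4
  have hKf : volume K < ∞ := by
    have : K ⊆ Metric.closedBall 0 (d + η) := by
      intro z hz
      rw [hKmem] at hz
      rw [mem_closedBall_zero_iff]
      refine (Complex.norm_le_abs_re_add_abs_im z).trans ?_
      have : |z.re| ≤ d := by
        rw [abs_le]
        constructor <;> linarith [hz.1.1, hz.1.2.1]
      linarith [hz.1.2.2]
    exact (measure_mono this).trans_lt measure_closedBall_lt_top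
  have hKn : ∀ z ∈ K, d / 6 ≤ ‖z‖ := fun z hz => by
    rw [hKmem] at hz
    exact hz.1.1.trans (Complex.re_le_norm z)
  have hKa0 : ∀ z ∈ K, 0 ≤ arg z := fun z hz => Complex.arg_nonneg_iff.2 (hKQ hz).2.le
  have hKa : ∀ z ∈ K, arg z ≤ ψ₀ := by
    intro z hz
    have hre : 0 < z.re := (hKQ hz).1
    have hlt : |arg z| < π / 2 := Complex.abs_arg_lt_pi_div_two_iff.2 (Or.inl hre)
    rw [abs_lt] at hlt
    rw [← Real.strictMonoOn_tan.le_iff_le (a := arg z) (b := ψ₀) ⟨by linarith [hlt.1], hlt.2⟩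
      ⟨by linarith, hψ₀1⟩, Complex.tan_arg, div_le_iff₀ hre]
    rw [hKmem] at hz
    have h1 : z.im ≤ η := (le_abs_self _).trans hz.1.2.2
    calc z.im ≤ η := h1
      _ ≤ d / 6 * Real.tan ψ₀ := hη1
      _ ≤ z.re * Real.tan ψ₀ := mul_le_mul_of_nonneg_right hz.1.1 htan.le
      _ = Real.tan ψ₀ * z.re := by ring
  obtain ⟨C1, hC1, hG⟩ := Gf_bound kf hGFT hα hα2 hψ₀0.le (by rw [hψ₀]; linarith : 2 * ψ₀ < π - 2 * α)
    (by positivity : 0 < d / 6)
  obtain ⟨C2, hC2, hC⟩ := CR_bound hd η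
  have hT0 : ∀ t, T0 0 d η (Gr α 0) (GR d) t = ∫ τ in (0 : ℝ)..t, ∫ z in K, ∫ w in K,
      Gf α τ w z * CR d (t - τ) z w := by
    intro t
    unfold T0
    simp_rw [Gr_zero, CC_eq]
    rfl
  have hKc : ∀ z ∈ K, z ∈ Kc d η := fun z hz => hz.1
  have lap : ∀ κ : ℝ, 0 < κ → _ := fun κ hκ =>
    laplace_conv (B := max C1 C2) (l := κ ^ 2) hKm hKf (G := fun p => Gf α p.1 p.2.1 p.2.2)
      (C2 := fun p => CR d p.1 p.2.1 p.2.2) (measurable_Gf α) (measurable_CR d)
      (fun τ z w hτ hz hw => (hG τ w z hτ (hKn w hw) (hKn z hz)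
        (by rw [abs_of_nonneg (hKa0 w hw)]; exact hKa w hw)
        (by rw [abs_of_nonneg (hKa0 z hz)]; exact hKa z hz)).trans (le_max_left _ _))
      (fun τ z w hτ hz hw => (hC τ z w hτ (hKc z hz) (hKc w hw)).trans (le_max_right _ _))
      (by positivity)
  constructor
  · intro κ hκ
    simp_rw [hT0]
    exact (lap κ hκ).1
  -- the choice of `ψ`
  set ψ := min ψ₀ (η / (π * d)) with hψdef
  have hψ : 0 < ψ := lt_min hψ₀0 (by positivity)
  have hψ1 : ψ ≤ ψ₀ := min_le_left _ _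
  have hψη : ψ ≤ η / (π * d) := min_le_right _ _
  have hψ2 : 2 * ψ < π - 2 * α := by
    have : 2 * ψ₀ = π / 2 - α := by
      rw [hψ₀]
      ring
    linarith
  have hψ3 : ψ < π / 2 := by linarith
  have hs0 : 0 < Real.sin ψ := Real.sin_pos_of_pos_of_lt_pi hψ (by linarith)
  set η' := η * ψ / (2 * π) with hη'
  have hη'0 : 0 < η' := by positivity
  have hexp : 2 * d + 2 * η' ≤ 2 * (d * Real.cos ψ) + Real.sin ψ * η := by
    have k1 := Real.one_sub_sq_div_two_le_cos (x := ψ)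
    have k2 := Real.mul_le_sin hψ.le hψ3.le
    have k3 : d * ψ ^ 2 ≤ ψ * η / π := by
      calc d * ψ ^ 2 = d * ψ * ψ := by ring
        _ ≤ d * ψ * (η / (π * d)) := mul_le_mul_of_nonneg_left hψη (by positivity)
        _ = ψ * η / π := by
            field_simp
    have k4 : 2 * η' = ψ * η / π := by
      rw [hη']
      field_simp
    have k5 : 2 / π * ψ * η ≤ Real.sin ψ * η := mul_le_mul_of_nonneg_right k2 hη.le
    have k6 : 2 / π * ψ * η = 2 * (ψ * η / π) := by ring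
    have k7 : d * (1 - ψ ^ 2 / 2) ≤ d * Real.cos ψ := mul_le_mul_of_nonneg_left k1 hd.le
    nlinarith
  set DR := ∫ μ, Rf α μ * Real.exp (2 * ψ * μ) ∂hl with hDR
  have hDR0 : 0 ≤ DR := by
    apply setIntegral_nonneg measurableSet_Ioi
    intro μ hμ
    exact mul_nonneg (Rf_nonneg hα hα2 (le_of_lt hμ)) (Real.exp_pos _).le
  set A0 := ∫ s, a0 d s ∂hl with hA0
  have hA00 : 0 ≤ A0 := by
    apply integral_nonneg
    intro s
    unfold a0
    positivity
  set C3 := 2 * (B ^ 2 * (π / (2 * (d / 3) * Real.sin ψ))) * (d / 3 * (1 / Real.sin ψ)) *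
    (d / 3 * (1 / Real.sin ψ)) * (DR * A0) with hC3
  have hC30 : 0 ≤ C3 := by positivity
  refine ⟨C3 * (2 / η' ^ 2), η', 1, hη'0, fun κ hκ1 => ?_⟩
  have hκ : 0 < κ := by linarith
  have has := as_sq_integrable hd hκ1
  -- the value
  have hval : ∫ t in Ioi (0 : ℝ), Real.exp (-(κ ^ 2 * t)) * T0 0 d η (Gr α 0) (GR d) t =
      2 / π ^ 3 * ∫ p, Rf α p.1 * (∫ z in K, Ph d κ p z) ^ 2 ∂(hl.prod hl) := by
    simp_rw [hT0]
    rw [(lap κ hκ).2, ← fub kf hGFT hd hB hB1 hB2 hψ hα hα2 hψ2 hκ has hKm hKQ]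
    apply setIntegral_congr_fun hKm
    intro z hz
    apply setIntegral_congr_fun hKm
    intro w hw
    have q1 := (hL1 α 0 κ w z hα le_rfl (by linarith) hκ (hKQ hw).1
      (by rw [add_zero]; exact hKa0 w hw)
      (by rw [add_zero]; have := hKa w hw; linarith)
      (hKQ hz).1 (by rw [add_zero]; exact hKa0 z hz)
      (by rw [add_zero]; have := hKa z hz; linarith)).2
    have q2 := (hL7B d hd κ η z w hκ (hKc z hz) (hKc w hw)).2.2.1
    simp_rw [Gr_zero] at q1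
    simp_rw [CC_eq] at q2
    simp only
    rw [q1, q2]
  rw [hval, XF_eq hGFT hL5 hα hα2 hd hκ, ← mul_sub, abs_mul]
  have hdiff := diff_le kf hGFT hd hB hB1 hB2 hψ hα hα2 hψ2 hκ has hKm hKQ (η := η) (by
    intro z hz hzK h1 h2
    by_contra hcon
    rw [not_lt] at hcon
    apply hzK
    rw [hKmem]
    refine ⟨⟨by linarith, by linarith, ?_⟩, hz.2⟩
    rw [abs_of_pos hz.2]
    exact hcon)
  rw [← hDR] at hdiff
  have hI : ∫ s, as d κ s ^ 2 ∂hl ≤ κ ^ 2 * A0 := by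
    rw [hA0, ← integral_const_mul]
    exact integral_mono has ((a0_integrable hd).const_mul _) (fun s => as_sq_le hd hκ1)
  have hI0 : 0 ≤ ∫ s, as d κ s ^ 2 ∂hl := integral_nonneg fun s => sq_nonneg _
  have h2pi : |2 / π ^ 3| ≤ 1 := by
    rw [abs_of_pos (by positivity), div_le_one (by positivity)]
    have : (1 : ℝ) ≤ π ^ 2 := by nlinarith
    nlinarith
  have hcc : cc B d κ ψ ^ 2 ≤ B ^ 2 * (π / (2 * (d / 3) * Real.sin ψ)) *
      Real.exp (-(2 * (κ * (d * Real.cos ψ)))) := by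
    unfold cc
    rw [mul_pow, mul_pow, Real.sq_sqrt (by positivity), ← Real.exp_nat_mul]
    have r1 : π / (2 * κ * (d / 3) * Real.sin ψ) ≤ π / (2 * (d / 3) * Real.sin ψ) := by
      apply div_le_div_of_nonneg_left hpi.le (by positivity)
      have h8 : 0 ≤ (κ - 1) * (2 * (d / 3) * Real.sin ψ) := mul_nonneg (by linarith) (by positivity)
      have h9 : 2 * κ * (d / 3) * Real.sin ψ - 2 * (d / 3) * Real.sin ψ =
        (κ - 1) * (2 * (d / 3) * Real.sin ψ) := by ring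
      clear * - h8 h9
      linarith
    have r2 : ((2 : ℕ) : ℝ) * -(κ * (d * Real.cos ψ)) = -(2 * (κ * (d * Real.cos ψ))) := by
      push_cast
      ring
    rw [r2]
    apply mul_le_mul_of_nonneg_right _ (Real.exp_pos _).le
    exact mul_le_mul_of_nonneg_left r1 (by positivity)
  have hden : ∀ x : ℝ, 0 ≤ x → d / 3 * (x / (κ * Real.sin ψ)) ≤ d / 3 * (1 / Real.sin ψ) * x := by
    intro x hx
    have : x / (κ * Real.sin ψ) ≤ x / Real.sin ψ := by
      apply div_le_div_of_nonneg_left hx hs0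
      clear * - hs0 hκ1
      nlinarith
    calc d / 3 * (x / (κ * Real.sin ψ)) ≤ d / 3 * (x / Real.sin ψ) := by gcongr
      _ = _ := by ring
  have hN0 := hden (Real.exp (-(κ * Real.sin ψ * 0))) (Real.exp_pos _).le
  have hN1 := hden (Real.exp (-(κ * Real.sin ψ * η))) (Real.exp_pos _).le
  rw [show Real.exp (-(κ * Real.sin ψ * 0)) = 1 by simp, mul_one] at hN0
  have hfac : κ ^ 2 * Real.exp (-(κ * η')) ≤ 2 / η' ^ 2 := by
    have h2 := Real.pow_div_factorial_le_exp (κ * η') (by positivity) 2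
    have h3 : ((Nat.factorial 2 : ℕ) : ℝ) = 2 := by norm_num
    rw [h3, div_le_iff₀ (by norm_num)] at h2
    rw [Real.exp_neg, ← div_eq_mul_inv, div_le_div_iff₀ (Real.exp_pos _) (by positivity)]
    clear * - h2
    linarith
  have hexp2 : Real.exp (-(2 * (κ * (d * Real.cos ψ)))) * Real.exp (-(κ * Real.sin ψ * η)) ≤
      Real.exp (-((2 * d + η') * κ)) * Real.exp (-(κ * η')) := by
    rw [← Real.exp_add, ← Real.exp_add]
    apply Real.exp_le_exp.2
    have h8 := mul_le_mul_of_nonneg_left hexp hκ.le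
    clear * - h8
    linarith
  calc |2 / π ^ 3| * |∫ p, Rf α p.1 * (∫ z in K, Ph d κ p z) ^ 2 ∂(hl.prod hl) -
      ∫ p, Rf α p.1 * (∫ z in Qd, Ph d κ p z) ^ 2 ∂(hl.prod hl)| ≤
      1 * (2 * cc B d κ ψ ^ 2 * (d / 3 * (Real.exp (-(κ * Real.sin ψ * 0)) / (κ * Real.sin ψ))) *
      (d / 3 * (Real.exp (-(κ * Real.sin ψ * η)) / (κ * Real.sin ψ))) *
      (DR * ∫ s, as d κ s ^ 2 ∂hl)) := mul_le_mul h2pi hdiff (abs_nonneg _) zero_le_one
    _ ≤ 1 * (2 * (B ^ 2 * (π / (2 * (d / 3) * Real.sin ψ)) *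
      Real.exp (-(2 * (κ * (d * Real.cos ψ))))) * (d / 3 * (1 / Real.sin ψ)) *
      (d / 3 * (1 / Real.sin ψ) * Real.exp (-(κ * Real.sin ψ * η))) *
      (DR * (κ ^ 2 * A0))) := by
        rw [show Real.exp (-(κ * Real.sin ψ * 0)) = 1 by simp]
        gcongr
    _ = C3 * (κ ^ 2 * (Real.exp (-(2 * (κ * (d * Real.cos ψ)))) *
        Real.exp (-(κ * Real.sin ψ * η)))) := by
        rw [hC3]
        ring
    _ ≤ C3 * (κ ^ 2 * (Real.exp (-((2 * d + η') * κ)) * Real.exp (-(κ * η')))) := by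
        gcongr
    _ = C3 * (κ ^ 2 * Real.exp (-(κ * η'))) * Real.exp (-((2 * d + η') * κ)) := by ring
    _ ≤ C3 * (2 / η' ^ 2) * Real.exp (-((2 * d + η') * κ)) := by gcongr

end Pool.Agent.H971.TiR
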